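import Mathlib
import Pool.Agent.Y817.PD.Stm

/-! # Binary codes closed under a non-affine operation (job PD-BIN, helper246) -/

set_option autoImplicit false

namespace Pool.Agent.Y246.PD

open Finset Pool.Agent.Y817.PD

variable {n k : ℕ}

/-- the coordinates where two words differ -/
def Dif (x y : Fin n → ZMod 2) : Finset (Fin n) := univ.filter fun i => x i ≠ y i

lemma mem_Dif {x y : Fin n → ZMod 2} {i : Fin n} : i ∈ Dif x y ↔ x i ≠ y i := by
  simp [Dif]

lemma card_Dif (x y : Fin n → ZMod 2) : (Dif x y).card = hammingDist x y := rfl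

/-- minimal difference sets -/
def IsMin (C : Finset (Fin n → ZMod 2)) (D : Finset (Fin n)) : Prop :=
  ∃ u ∈ C, ∃ v ∈ C, u ≠ v ∧ D = Dif u v ∧
    ∀ x ∈ C, ∀ y ∈ C, x ≠ y → Dif x y ⊆ D → Dif x y = D

lemma exists_min (C : Finset (Fin n → ZMod 2)) {x y : Fin n → ZMod 2} (hx : x ∈ C) (hy : y ∈ C)
    (hxy : x ≠ y) : ∃ D, IsMin C D ∧ D ⊆ Dif x y := by
  classical
  let S := (C ×ˢ C).filter fun p => p.1 ≠ p.2 ∧ Dif p.1 p.2 ⊆ Dif x y
  have hne : S.Nonempty := ⟨(x, y), by
    rw [mem_filter, mem_product]
    exact ⟨⟨hx, hy⟩, hxy, Subset.refl _⟩⟩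
  obtain ⟨⟨u, v⟩, huv, hmin⟩ := exists_min_image S (fun p => (Dif p.1 p.2).card) hne
  rw [mem_filter, mem_product] at huv
  obtain ⟨⟨hu, hv⟩, h1, h2⟩ := huv
  refine ⟨Dif u v, ⟨u, hu, v, hv, h1, rfl, ?_⟩, h2⟩
  intro a ha b hb hab hsub
  refine eq_of_subset_of_card_le hsub ?_
  exact hmin (a, b) (by
    rw [mem_filter, mem_product]
    exact ⟨⟨ha, hb⟩, hab, hsub.trans h2⟩)

lemma zmod2 (a b c : ZMod 2) (h : a ≠ b) : c = a ∨ c = b := by
  revert a b c
  decide

/-- a Boolean function whose flips are constant is affine -/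
lemma affine_of_flip (f : (Fin k → ZMod 2) → ZMod 2)
    (h : ∀ j, (∀ b, f (Function.update b j 0) = f (Function.update b j 1)) ∨
      (∀ b, f (Function.update b j 0) ≠ f (Function.update b j 1))) : Affine f := by
  classical
  let a : Fin k → ZMod 2 := fun j => f (Function.update 0 j 0) + f (Function.update 0 j 1)
  have ha : ∀ j b, f (Function.update b j 1) = f (Function.update b j 0) + a j := by
    intro j b
    rcases h j with h1 | h1
    · have e1 := h1 b
      have e2 := h1 0
      change f (Function.update b j 1) = f (Function.update b j 0) +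
        (f (Function.update 0 j 0) + f (Function.update 0 j 1))
      rw [e1, e2]
      generalize f (Function.update b j 1) = s
      generalize f (Function.update 0 j 1) = t
      revert s t
      decide
    · have e1 := h1 b
      have e2 := h1 0
      change f (Function.update b j 1) = f (Function.update b j 0) +
        (f (Function.update 0 j 0) + f (Function.update 0 j 1))
      generalize f (Function.update b j 1) = s at *
      generalize f (Function.update 0 j 1) = t at *
      generalize f (Function.update b j 0) = s' at *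
      generalize f (Function.update 0 j 0) = t' at *
      revert s t s' t'
      decide
  have key : ∀ (x : Fin k → ZMod 2) (s : Finset (Fin k)),
      f (fun l => if l ∈ s then x l else 0) = f 0 + ∑ l ∈ s, a l * x l := by
    intro x s
    induction s using Finset.induction_on with
    | empty =>
      rw [sum_empty, add_zero]
      rfl
    | insert j s hj ih =>
      have e : (fun l => if l ∈ insert j s then x l else 0) =
          Function.update (fun l => if l ∈ s then x l else 0) j (x j) := by
        funext l
        by_cases hl : l = j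
        · subst hl
          simp
        · rw [Function.update_of_ne hl]
          simp [hl]
      have e0 : (fun l => if l ∈ s then x l else 0) =
          Function.update (fun l => if l ∈ s then x l else 0) j 0 := by
        funext l
        by_cases hl : l = j
        · subst hl
          simp [hj]
        · rw [Function.update_of_ne hl]
      rw [e, sum_insert hj]
      rcases zmod2 0 1 (x j) (by decide) with h0 | h0
      · rw [h0, ← e0, ih]
        ring
      · rw [h0, ha, ← e0, ih]
        ring
  refine ⟨a, f 0, fun x => ?_⟩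
  have := key x univ
  simpa using this

section Core

variable {f : Fin n → (Fin k → ZMod 2) → ZMod 2} {C : Finset (Fin n → ZMod 2)}

/-- the coordinatewise operation -/
def Fc (f : Fin n → (Fin k → ZMod 2) → ZMod 2) (w : Fin k → (Fin n → ZMod 2)) : Fin n → ZMod 2 :=
  fun i => f i (fun l => w l i)

/-- agreement at a coordinate of `D` -/
def rr (C : Finset (Fin n → ZMod 2)) (D : Finset (Fin n)) (x y : Fin n → ZMod 2) : Prop :=
  x ∈ C ∧ y ∈ C ∧ ∃ i ∈ D, x i = y i

lemma step1 (hcl : ∀ w : Fin k → (Fin n → ZMod 2), (∀ l, w l ∈ C) → Fc f w ∈ C)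
    {D : Finset (Fin n)} (hD : IsMin C D) {i₀ : Fin n} (hi₀ : i₀ ∈ D) (hna : ¬ Affine (f i₀)) :
    ∃ z ∈ C, ∃ w ∈ C, ¬ Relation.ReflTransGen (rr C D) z w := by
  classical
  by_contra hcon
  push Not at hcon
  apply hna
  obtain ⟨u, hu, v, hv, huv, hDe, hmin⟩ := hD
  have hdiff : ∀ i ∈ D, u i ≠ v i := by
    intro i hi
    rw [hDe, mem_Dif] at hi
    exact hi
  have hsame : ∀ i, i ∉ D → u i = v i := by
    intro i hi
    rw [hDe, mem_Dif, not_not] at hi
    exact hi
  -- the condition is decided at each coordinate of `D`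
  have hupd : ∀ (w : Fin k → (Fin n → ZMod 2)) (j : Fin k) (z : Fin n → ZMod 2), z ∈ C →
      (∀ l, w l ∈ C) → ∀ l, Function.update w j z l ∈ C := by
    intro w j z hz hw l
    by_cases hl : l = j
    · subst hl
      rw [Function.update_self]
      exact hz
    · rw [Function.update_of_ne hl]
      exact hw l
  have hval : ∀ (w : Fin k → (Fin n → ZMod 2)) (j : Fin k) (z : Fin n → ZMod 2) (i : Fin n),
      Fc f (Function.update w j z) i = f i (Function.update (fun l => w l i) j (z i)) := by
    intro w j z i
    unfold Fc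
    congr 1
    funext l
    by_cases hl : l = j
    · subst hl
      simp
    · simp [Function.update_of_ne hl]
  have hA : ∀ (w : Fin k → (Fin n → ZMod 2)) (j : Fin k), (∀ l, w l ∈ C) → ∀ i ∈ D,
      (Fc f (Function.update w j u) = Fc f (Function.update w j v) ↔
        f i (Function.update (fun l => w l i) j (u i)) =
          f i (Function.update (fun l => w l i) j (v i))) := by
    intro w j hw i hi
    constructor
    · intro h
      have := congrFun h i
      rwa [hval, hval] at this
    · intro h
      by_contra hne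
      have h1 : Dif (Fc f (Function.update w j u)) (Fc f (Function.update w j v)) ⊆ D := by
        intro i' hi'
        rw [mem_Dif, hval, hval] at hi'
        by_contra hiD
        rw [hsame i' hiD] at hi'
        exact hi' rfl
      have h2 := hmin _ (hcl _ (hupd w j u hu hw)) _ (hcl _ (hupd w j v hv hw)) hne h1
      rw [← h2, mem_Dif, hval, hval] at hi
      exact hi h
  -- one argument
  have hC : ∀ (j m : Fin k) (w : Fin k → (Fin n → ZMod 2)), (∀ l, w l ∈ C) → ∀ z z' : Fin n → ZMod 2,
      Relation.ReflTransGen (rr C D) z z' → z ∈ C → 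
      (Fc f (Function.update (Function.update w m z) j u) =
        Fc f (Function.update (Function.update w m z) j v) ↔
      Fc f (Function.update (Function.update w m z') j u) =
        Fc f (Function.update (Function.update w m z') j v)) := by
    intro j m w hw z z' hzz hz
    induction hzz with
    | refl => exact Iff.rfl
    | tail _ hbc ih =>
      rename_i b c _
      obtain ⟨hb, hc, i, hi, hbi⟩ := hbc
      rw [ih, hA _ j (hupd w m b hb hw) i hi, hA _ j (hupd w m c hc hw) i hi]
      have e : (fun l => Function.update w m b l i) = fun l => Function.update w m c l i := by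
        funext l
        by_cases hl : l = m
        · subst hl
          simpa using hbi
        · simp [Function.update_of_ne hl]
      rw [e]
  -- all arguments
  have hE : ∀ (j : Fin k) (w w' : Fin k → (Fin n → ZMod 2)), (∀ l, w l ∈ C) → (∀ l, w' l ∈ C) →
      (Fc f (Function.update w j u) = Fc f (Function.update w j v) ↔
        Fc f (Function.update w' j u) = Fc f (Function.update w' j v)) := by
    intro j w w' hw hw'
    have hmix : ∀ s : Finset (Fin k), ∀ l, (if l ∈ s then w' l else w l) ∈ C := by
      intro s l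
      by_cases hl : l ∈ s
      · rw [if_pos hl]
        exact hw' l
      · rw [if_neg hl]
        exact hw l
    have hind : ∀ s : Finset (Fin k),
        (Fc f (Function.update w j u) = Fc f (Function.update w j v) ↔
          Fc f (Function.update (fun l => if l ∈ s then w' l else w l) j u) =
            Fc f (Function.update (fun l => if l ∈ s then w' l else w l) j v)) := by
      intro s
      induction s using Finset.induction_on with
      | empty => simp
      | insert m s hm ih =>
        have e : (fun l => if l ∈ insert m s then w' l else w l) =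
            Function.update (fun l => if l ∈ s then w' l else w l) m (w' m) := by
          funext l
          by_cases hl : l = m
          · subst hl
            simp
          · rw [Function.update_of_ne hl]
            simp [hl]
        have e0 : (fun l => if l ∈ s then w' l else w l) =
            Function.update (fun l => if l ∈ s then w' l else w l) m (w m) := by
          funext l
          by_cases hl : l = m
          · subst hl
            simp [hm]
          · rw [Function.update_of_ne hl]
        rw [ih, e]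
        conv_lhs => rw [e0]
        exact hC j m _ (hmix s) (w m) (w' m) (hcon _ (hw m) _ (hw' m)) (hw m)
    have := hind univ
    simpa using this
  -- bit patterns
  apply affine_of_flip
  intro j
  have hbit : ∀ b : Fin k → ZMod 2, ∃ w : Fin k → (Fin n → ZMod 2), (∀ l, w l ∈ C) ∧
      (fun l => w l i₀) = b := by
    intro b
    refine ⟨fun l => if u i₀ = b l then u else v, fun l => ?_, ?_⟩
    · by_cases hl : u i₀ = b l
      · simp only [hl, if_true]
        exact hu
      · simp only [hl, if_false]
        exact hv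
    · funext l
      by_cases hl : u i₀ = b l
      · simp only [hl, if_true]
      · simp only [hl, if_false]
        rcases zmod2 (u i₀) (v i₀) (b l) (hdiff i₀ hi₀) with h | h
        · exact absurd h.symm hl
        · exact h.symm
  have hflip : ∀ b : Fin k → ZMod 2,
      (f i₀ (Function.update b j (u i₀)) = f i₀ (Function.update b j (v i₀)) ↔
        f i₀ (Function.update b j 0) = f i₀ (Function.update b j 1)) := by
    intro b
    have h01 := hdiff i₀ hi₀
    rcases zmod2 0 1 (u i₀) (by decide) with h | h <;>
      rcases zmod2 0 1 (v i₀) (by decide) with h' | h'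
    · exact absurd (h.trans h'.symm) h01
    · rw [h, h']
    · rw [h, h']
      exact eq_comm
    · exact absurd (h.trans h'.symm) h01
  by_cases hz : f i₀ (Function.update 0 j 0) = f i₀ (Function.update 0 j 1)
  · left
    intro b
    obtain ⟨w, hw, hwb⟩ := hbit b
    obtain ⟨w', hw', hwb'⟩ := hbit 0
    rw [← hflip b, ← hwb, ← hA w j hw i₀ hi₀, hE j w w' hw hw', hA w' j hw' i₀ hi₀, hwb', hflip]
    exact hz
  · right
    intro b hb
    apply hz
    obtain ⟨w, hw, hwb⟩ := hbit b
    obtain ⟨w', hw', hwb'⟩ := hbit 0
    rw [← hflip, ← hwb', ← hA w' j hw' i₀ hi₀, hE j w' w hw' hw, hA w j hw i₀ hi₀, hwb, hflip]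
    exact hb

lemma step2 (hcl : ∀ w : Fin k → (Fin n → ZMod 2), (∀ l, w l ∈ C) → Fc f w ∈ C)
    {D : Finset (Fin n)} (hD : IsMin C D) {i₀ : Fin n} (hi₀ : i₀ ∈ D) (hna : ¬ Affine (f i₀)) :
    ∃ z w : Fin n → ZMod 2, (∀ i ∈ D, z i ≠ w i) ∧
      ∀ y ∈ C, (∀ i ∈ D, y i = z i) ∨ (∀ i ∈ D, y i = w i) := by
  obtain ⟨z, hz, w, hw, hn⟩ := step1 hcl hD hi₀ hna
  have hzw : ∀ i ∈ D, z i ≠ w i := by
    intro i hi h
    exact hn (Relation.ReflTransGen.single ⟨hz, hw, i, hi, h⟩)
  refine ⟨z, w, hzw, fun y hy => ?_⟩
  by_cases h : ∃ i ∈ D, y i = z i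
  · left
    obtain ⟨i, hi, hyi⟩ := h
    intro i' hi'
    rcases zmod2 (z i') (w i') (y i') (hzw i' hi') with h1 | h1
    · exact h1
    · exfalso
      apply hn
      have r1 : rr C D z y := ⟨hz, hy, i, hi, hyi.symm⟩
      have r2 : rr C D y w := ⟨hy, hw, i', hi', h1⟩
      exact (Relation.ReflTransGen.single r1).trans (Relation.ReflTransGen.single r2)
  · right
    push Not at h
    intro i hi
    rcases zmod2 (z i) (w i) (y i) (hzw i hi) with h1 | h1
    · exact absurd h1 (h i hi)
    · exact h1

end Core

lemma card_le_maxCode {m d : ℕ} (S : Finset (Fin m → ZMod 2)) (h : MinDist S d) :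
    S.card ≤ maxCode (ZMod 2) m d := by
  unfold maxCode
  refine le_csSup ⟨Fintype.card (Fin m → ZMod 2), ?_⟩ ⟨S, h, rfl⟩
  rintro _ ⟨C, _, rfl⟩
  exact card_le_univ C

theorem bin : StmBin := by
  classical
  intro n d k f T C hd hna hcl hmd
  let DD : Finset (Finset (Fin n)) := univ.filter fun D => IsMin C D ∧ ¬ D ⊆ T
  have hDD : ∀ D, D ∈ DD ↔ IsMin C D ∧ ¬ D ⊆ T := fun D => by simp [DD]
  have hcard : ∀ D, IsMin C D → d ≤ D.card := by
    rintro D ⟨u, hu, v, hv, huv, rfl, -⟩
    exact hmd u hu v hv huv
  have hne : ∀ D, IsMin C D → D.Nonempty := fun D hD =>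
    card_pos.1 (lt_of_lt_of_le (by omega) (hcard D hD))
  have hs2 : ∀ D ∈ DD, ∃ z w : Fin n → ZMod 2, (∀ i ∈ D, z i ≠ w i) ∧
      ∀ y ∈ C, (∀ i ∈ D, y i = z i) ∨ (∀ i ∈ D, y i = w i) := by
    intro D hD
    obtain ⟨h1, h2⟩ := (hDD D).1 hD
    obtain ⟨i₀, hi₀, hiT⟩ := not_subset.1 h2
    exact step2 hcl h1 hi₀ (hna i₀ hiT)
  have hdisj : ∀ D ∈ DD, ∀ D' ∈ DD, D ≠ D' → Disjoint D D' := by
    intro D hD D' hD' hDD'
    rw [disjoint_left]
    intro i hi hi'
    apply hDD'
    obtain ⟨z, w, hzw, hall⟩ := hs2 D hD
    obtain ⟨u, hu, v, hv, huv, hDe, _⟩ := ((hDD D).1 hD).1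
    obtain ⟨u', hu', v', hv', huv', hDe', hmin'⟩ := ((hDD D').1 hD').1
    have hne' : u' i ≠ v' i := by
      rw [hDe', mem_Dif] at hi'
      exact hi'
    have hsub : D ⊆ D' := by
      intro j hj
      rw [hDe', mem_Dif]
      rcases hall u' hu' with h1 | h1 <;> rcases hall v' hv' with h2 | h2
      · exact absurd ((h1 i hi).trans (h2 i hi).symm) hne'
      · rw [h1 j hj, h2 j hj]
        exact hzw j hj
      · rw [h1 j hj, h2 j hj]
        exact (hzw j hj).symm
      · exact absurd ((h1 i hi).trans (h2 i hi).symm) hne'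
    rw [hDe]
    exact hmin' u hu v hv huv (hDe ▸ hsub)
  have hnum : DD.card ≤ n / d := by
    rw [Nat.le_div_iff_mul_le (by omega)]
    have h1 : (DD.biUnion id).card = ∑ D ∈ DD, D.card :=
      card_biUnion fun D hD D' hD' h => hdisj D hD D' hD' h
    calc DD.card * d = ∑ _D ∈ DD, d := by rw [sum_const, smul_eq_mul]
      _ ≤ ∑ D ∈ DD, D.card := sum_le_sum fun D hD => hcard D ((hDD D).1 hD).1
      _ = (DD.biUnion id).card := h1.symm
      _ ≤ n := by
        refine (card_le_univ _).trans ?_
        simp
  -- a point of each set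
  have hpt : ∀ D : {D // D ∈ DD}, ∃ i, i ∈ D.1 := fun D => hne D.1 ((hDD D.1).1 D.2).1
  choose pt hpt using hpt
  let φ : (Fin n → ZMod 2) → ({D // D ∈ DD} → ZMod 2) := fun z D => z (pt D)
  have hfib : ∀ a ∈ C.image φ, (C.filter fun z => φ z = a).card ≤ maxCode (ZMod 2) T.card d := by
    intro a _
    let S := C.filter fun z => φ z = a
    let ρ : (Fin n → ZMod 2) → (Fin T.card → ZMod 2) := fun z t => z (T.equivFin.symm t)
    have hkey : ∀ z ∈ S, ∀ w ∈ S, z ≠ w → d ≤ hammingDist (ρ z) (ρ w) := by
      intro z hz w hw hzw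
      obtain ⟨hz1, hz2⟩ := mem_filter.1 hz
      obtain ⟨hw1, hw2⟩ := mem_filter.1 hw
      obtain ⟨D, hD, hDs⟩ := exists_min C hz1 hw1 hzw
      have hDT : D ⊆ T := by
        by_contra hnT
        have hmem : D ∈ DD := (hDD D).2 ⟨hD, hnT⟩
        have h1 := hDs (hpt ⟨D, hmem⟩)
        rw [mem_Dif] at h1
        exact h1 (congrFun (hz2.trans hw2.symm) ⟨D, hmem⟩)
      refine (hcard D hD).trans ?_
      unfold hammingDist
      have hmem : ∀ i ∈ D, i ∈ T := fun i hi => hDT hi
      refine card_le_card_of_injOn (fun i => if h : i ∈ T then T.equivFin ⟨i, h⟩ else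
        T.equivFin ⟨_, hmem _ (hne D hD).choose_spec⟩) ?_ ?_
      · intro i hi
        have hiT := hmem i hi
        simp only [hiT, dif_pos, coe_filter, mem_univ, true_and, Set.mem_ofPred_eq]
        change z (T.equivFin.symm (T.equivFin ⟨i, hiT⟩)) ≠ w (T.equivFin.symm (T.equivFin ⟨i, hiT⟩))
        rw [Equiv.symm_apply_apply]
        exact mem_Dif.1 (hDs hi)
      · intro i hi j hj hij
        have hiT := hmem i hi
        have hjT := hmem j hj
        simp only [hiT, hjT, dif_pos] at hij
        have := T.equivFin.injective hij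
        exact congrArg Subtype.val this
    have hinj : Set.InjOn ρ (S : Set (Fin n → ZMod 2)) := by
      intro z hz w hw h
      by_contra hzw
      have h1 := hkey z hz w hw hzw
      rw [h, hammingDist_self] at h1
      omega
    have h1 : S.card = (S.image ρ).card := (card_image_of_injOn hinj).symm
    change S.card ≤ _
    rw [h1]
    apply card_le_maxCode
    intro x hx y hy hxy
    obtain ⟨z, hz, rfl⟩ := mem_image.1 hx
    obtain ⟨w, hw, rfl⟩ := mem_image.1 hy
    exact hkey z hz w hw fun h => hxy (h ▸ rfl)
  have h2 := card_le_mul_card_image C (maxCode (ZMod 2) T.card d) hfib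
  have h3 : (C.image φ).card ≤ 2 ^ DD.card := by
    refine (card_le_univ _).trans ?_
    rw [Fintype.card_fun, ZMod.card, Fintype.card_coe]
  calc C.card ≤ maxCode (ZMod 2) T.card d * (C.image φ).card := h2
    _ ≤ maxCode (ZMod 2) T.card d * 2 ^ (n / d) :=
      Nat.mul_le_mul_left _ (h3.trans (Nat.pow_le_pow_right (by norm_num) hnum))
    _ = 2 ^ (n / d) * maxCode (ZMod 2) T.card d := Nat.mul_comm _ _

/-- job PD-BIN -/
theorem t : Pool.Agent.Y817.PD.StmBin := bin

end Pool.Agent.Y246.PD
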